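import Pool.Agent.H88.KN.Targets

/-!
MP_b5bf4a_co, dense range: row XC (helper47).
-/

namespace Pool.Agent.H88.KN

theorem pf_XC (hXB : T_XB) (hXD : T_XD) : T_XC := by
  intro V _ rel K H hH ν hν lam hlam v w hvw t1 t2 t3 h0 h12 h23 h31 hcon
  obtain ⟨hv1, hv3, hw1, hw3⟩ := hcon
  have hHpos : (0 : ℝ) < H := by exact_mod_cast hH
  obtain ⟨τ1, hτ1, s1, hs10, hs11, ht1⟩ := hXD H hH t1 h0 (by linarith)
  obtain ⟨τ2, hτ2, s2, hs20, hs21, ht2⟩ := hXD H hH t2 (by linarith) (by linarith)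
  obtain ⟨τ3, hτ3, s3, hs30, hs31, ht3⟩ := hXD H hH t3 (by linarith) h31
  -- comparison of the times
  have key : ∀ (τ τ' : ℕ) (s s' : ℝ), 0 ≤ s → s' ≤ 1 → ((τ : ℝ) + s) / H < ((τ' : ℝ) + s') / H →
      τ < τ' ∨ (τ = τ' ∧ s < s') := by
    intro τ τ' s s' hs hs' hlt
    rw [div_lt_div_iff_of_pos_right hHpos] at hlt
    rcases lt_trichotomy τ τ' with h | h | h
    · exact Or.inl h
    · right
      refine ⟨h, ?_⟩
      rw [h] at hlt
      linarith
    · exfalso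
      have : ((τ' : ℝ) + 1) ≤ τ := by exact_mod_cast h
      linarith
  have k12 := key τ1 τ2 s1 s2 hs10 hs21 (by rw [← ht1, ← ht2]; exact h12)
  have k23 := key τ2 τ3 s2 s3 hs20 hs31 (by rw [← ht2, ← ht3]; exact h23)
  have e1 : ∀ x, lam t1 x = (1 - s1) * ν τ1 x + s1 * ν (τ1 + 1) x := by
    intro x; rw [ht1]; exact hlam τ1 hτ1 s1 hs10 hs11 x
  have e2 : ∀ x, lam t2 x = (1 - s2) * ν τ2 x + s2 * ν (τ2 + 1) x := by
    intro x; rw [ht2]; exact hlam τ2 hτ2 s2 hs20 hs21 x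
  have e3 : ∀ x, lam t3 x = (1 - s3) * ν τ3 x + s3 * ν (τ3 + 1) x := by
    intro x; rw [ht3]; exact hlam τ3 hτ3 s3 hs30 hs31 x
  -- bounds of the node values
  have nn : ∀ τ ≤ H, ∀ x, 0 ≤ ν τ x ∧ ν τ x ≤ 1 := by
    intro τ hτ x
    rcases hν.vals τ hτ x with h | h | h <;> rw [h] <;> norm_num
  obtain ⟨θ, hθ⟩ : ∃ θ, θ = lam t2 v := ⟨_, rfl⟩
  obtain ⟨η, hη⟩ : ∃ η, η = max (lam t1 w) (lam t3 w) := ⟨_, rfl⟩
  have comb : ∀ (a b s : ℝ), 0 ≤ s → s ≤ 1 → 0 ≤ a → a ≤ 1 → 0 ≤ b → b ≤ 1 →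
      0 ≤ (1 - s) * a + s * b ∧ (1 - s) * a + s * b ≤ 1 := by
    intro a b s hs hs' ha ha' hb hb'
    constructor
    · have := mul_nonneg (sub_nonneg.2 hs') ha
      have := mul_nonneg hs hb
      linarith
    · have := mul_le_mul_of_nonneg_left ha' (sub_nonneg.2 hs')
      have := mul_le_mul_of_nonneg_left hb' hs
      linarith
  have b1 : ∀ x, 0 ≤ lam t1 x ∧ lam t1 x ≤ 1 := by
    intro x; rw [e1]
    exact comb _ _ _ hs10 hs11 (nn _ hτ1.le _).1 (nn _ hτ1.le _).2 (nn _ hτ1 _).1 (nn _ hτ1 _).2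
  have b2 : ∀ x, 0 ≤ lam t2 x ∧ lam t2 x ≤ 1 := by
    intro x; rw [e2]
    exact comb _ _ _ hs20 hs21 (nn _ hτ2.le _).1 (nn _ hτ2.le _).2 (nn _ hτ2 _).1 (nn _ hτ2 _).2
  have hθ0 : 0 ≤ θ := by rw [hθ]; exact (b2 v).1
  have hθ1 : θ < 1 := by rw [hθ]; linarith [(b1 v).2]
  have hη0 : 0 ≤ η := by rw [hη]; exact le_trans (b1 w).1 (le_max_left _ _)
  have hηw : η < lam t2 w := by rw [hη]; exact max_lt hw1 hw3
  have hη1 : η < 1 := lt_of_lt_of_le hηw (b2 w).2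
  have hη1w : lam t1 w ≤ η := by rw [hη]; exact le_max_left _ _
  have hη3w : lam t3 w ≤ η := by rw [hη]; exact le_max_right _ _
  -- attribution
  have A : ∀ σ ≤ H, θ < ν σ v → ν σ w ≤ η → ν σ w < ν σ v := by
    intro σ hσ h1 h2
    rcases hν.vals σ hσ v with h | h | h
    · exfalso; linarith
    · rcases hν.vals σ hσ w with h' | h' | h'
      · rw [h, h']; norm_num
      · exact absurd h' (hν.half σ hσ v w hvw h)
      · exfalso; linarith
    · rcases hν.vals σ hσ w with h' | h' | h'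
      · rw [h, h']; norm_num
      · rw [h, h']; norm_num
      · exfalso; linarith
  have B : ∀ σ ≤ H, ν σ v ≤ θ → η < ν σ w → ν σ v < ν σ w := by
    intro σ hσ h1 h2
    rcases hν.vals σ hσ w with h | h | h
    · exfalso; linarith
    · rcases hν.vals σ hσ v with h' | h' | h'
      · rw [h, h']; norm_num
      · exact absurd h (hν.half σ hσ v w hvw h')
      · exfalso; linarith
    · rcases hν.vals σ hσ v with h' | h' | h'
      · rw [h, h']; norm_num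
      · rw [h, h']; norm_num
      · exfalso; linarith
  have S1 : ∃ σ, τ1 ≤ σ ∧ σ ≤ τ1 + 1 ∧ ν σ w < ν σ v := by
    rcases hXB V (ν τ1) (ν (τ1 + 1)) (hν.seg τ1 hτ1) v w hvw s1 θ η hs10 hs11
      (by rw [← e1, hθ]; exact hv1) (by rw [← e1]; exact hη1w) with h | h
    · exact ⟨τ1, le_refl _, by omega, A _ hτ1.le h.1 h.2⟩
    · exact ⟨τ1 + 1, by omega, le_refl _, A _ hτ1 h.1 h.2⟩
  have S3 : ∃ σ, τ3 ≤ σ ∧ σ ≤ τ3 + 1 ∧ ν σ w < ν σ v := by
    rcases hXB V (ν τ3) (ν (τ3 + 1)) (hν.seg τ3 hτ3) v w hvw s3 θ η hs30 hs31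
      (by rw [← e3, hθ]; exact hv3) (by rw [← e3]; exact hη3w) with h | h
    · exact ⟨τ3, le_refl _, by omega, A _ hτ3.le h.1 h.2⟩
    · exact ⟨τ3 + 1, by omega, le_refl _, A _ hτ3 h.1 h.2⟩
  have S2 : ∃ σ, τ2 ≤ σ ∧ σ ≤ τ2 + 1 ∧ ν σ v < ν σ w := by
    rcases hXB V (ν τ2) (ν (τ2 + 1)) (hν.seg τ2 hτ2) w v (Ne.symm hvw) s2 η θ hs20 hs21
      (by rw [← e2]; exact hηw) (by rw [← e2, hθ]) with h | h
    · exact ⟨τ2, le_refl _, by omega, B _ hτ2.le h.2 h.1⟩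
    · exact ⟨τ2 + 1, by omega, le_refl _, B _ hτ2 h.2 h.1⟩
  -- the case of one segment
  have mono : ∀ (a b s s' : ℝ), s < s' → (1 - s') * a + s' * b < (1 - s) * a + s * b → b < a := by
    intro a b s s' hs h
    by_contra hc
    push Not at hc
    have := mul_nonneg (sub_nonneg.2 hs.le) (sub_nonneg.2 hc)
    nlinarith
  have mono' : ∀ (a b s s' : ℝ), s < s' → (1 - s) * a + s * b < (1 - s') * a + s' * b → a < b := by
    intro a b s s' hs h
    by_contra hc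
    push Not at hc
    have := mul_nonneg (sub_nonneg.2 hs.le) (sub_nonneg.2 hc)
    nlinarith
  have lin : ∀ (a b s : ℝ), 0 ≤ s → s ≤ 1 → b ≤ a →
      (1 - s) * a + s * b ≤ a ∧ b ≤ (1 - s) * a + s * b := by
    intro a b s hs hs' hab
    have h1 := mul_nonneg hs (sub_nonneg.2 hab)
    have h2 := mul_nonneg (sub_nonneg.2 hs') (sub_nonneg.2 hab)
    constructor <;> linarith
  have lin' : ∀ (a b s : ℝ), 0 ≤ s → s ≤ 1 → a ≤ b →
      a ≤ (1 - s) * a + s * b ∧ (1 - s) * a + s * b ≤ b := by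
    intro a b s hs hs' hab
    have h1 := mul_nonneg hs (sub_nonneg.2 hab)
    have h2 := mul_nonneg (sub_nonneg.2 hs') (sub_nonneg.2 hab)
    constructor <;> linarith
  have C12 : τ1 = τ2 → s1 < s2 → ν (τ2 + 1) v < ν τ2 v ∧ ν τ2 w < ν (τ2 + 1) w := by
    intro h hs
    subst h
    constructor
    · apply mono _ _ s1 s2 hs
      rw [← e1, ← e2]; exact hv1
    · apply mono' _ _ s1 s2 hs
      rw [← e1, ← e2]; exact hw1
  have C23 : τ2 = τ3 → s2 < s3 → ν τ2 v < ν (τ2 + 1) v ∧ ν (τ2 + 1) w < ν τ2 w := by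
    intro h hs
    subst h
    constructor
    · apply mono' _ _ s2 s3 hs
      rw [← e2, ← e3]; exact hv3
    · apply mono _ _ s2 s3 hs
      rw [← e2, ← e3]; exact hw3
  have fin : ∀ σ1 σ2 σ3, σ1 ≤ σ2 → σ2 ≤ σ3 → σ3 ≤ H → ν σ1 w < ν σ1 v → ν σ2 v < ν σ2 w →
      ν σ3 w < ν σ3 v → False := by
    intro σ1 σ2 σ3 h1 h2 h3 a1 a2 a3
    have n1 : σ1 ≠ σ2 := by
      rintro rfl
      linarith
    have n2 : σ2 ≠ σ3 := by
      rintro rfl
      linarith
    exact hν.order v w hvw σ1 σ2 σ3 (by omega) (by omega) h3 ⟨a1, a2, a3⟩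
  obtain ⟨σ1, a1, a1', r1⟩ := S1
  obtain ⟨σ2, a2, a2', r2⟩ := S2
  obtain ⟨σ3, a3, a3', r3⟩ := S3
  rcases k12 with h12' | ⟨h12', hs12⟩
  · rcases k23 with h23' | ⟨h23', hs23⟩
    · exact fin σ1 σ2 σ3 (by omega) (by omega) (by omega) r1 r2 r3
    · obtain ⟨c1, c2⟩ := C23 h23' hs23
      have q2 : ν τ2 v < ν τ2 w := by
        apply B _ hτ2.le
        · rw [hθ, e2]
          exact (lin' _ _ s2 hs20 hs21 c1.le).1
        · refine lt_of_lt_of_le hηw ?_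
          rw [e2]
          exact (lin _ _ s2 hs20 hs21 c2.le).1
      have q3 : ν (τ2 + 1) w < ν (τ2 + 1) v := by
        apply A _ hτ2
        · rw [hθ]
          refine lt_of_lt_of_le hv3 ?_
          rw [e3, ← h23']
          exact (lin' _ _ s3 hs30 hs31 c1.le).2
        · refine le_trans ?_ hη3w
          rw [e3, ← h23']
          exact (lin _ _ s3 hs30 hs31 c2.le).2
      exact fin σ1 τ2 (τ2 + 1) (by omega) (by omega) (by omega) r1 q2 q3
  · obtain ⟨c1, c2⟩ := C12 h12' hs12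
    rcases k23 with h23' | ⟨h23', hs23⟩
    · have q1 : ν τ2 w < ν τ2 v := by
        apply A _ hτ2.le
        · rw [hθ]
          refine lt_of_lt_of_le hv1 ?_
          rw [e1, h12']
          exact (lin _ _ s1 hs10 hs11 c1.le).1
        · refine le_trans ?_ hη1w
          rw [e1, h12']
          exact (lin' _ _ s1 hs10 hs11 c2.le).1
      have q2 : ν (τ2 + 1) v < ν (τ2 + 1) w := by
        apply B _ hτ2
        · rw [hθ, e2]
          exact (lin _ _ s2 hs20 hs21 c1.le).2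
        · refine lt_of_lt_of_le hηw ?_
          rw [e2]
          exact (lin' _ _ s2 hs20 hs21 c2.le).2
      exact fin τ2 (τ2 + 1) σ3 (by omega) (by omega) (by omega) q1 q2 r3
    · obtain ⟨c3, c4⟩ := C23 h23' hs23
      linarith

end Pool.Agent.H88.KN
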