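import Pool.Agent.H88.KN.Targets

/-!
MP_b5bf4a_co, dense range: row XD (helper47).
-/

namespace Pool.Agent.H88.KN

theorem pf_XD : T_XD := by
  intro H hH t ht0 ht1
  have hHpos : (0 : ℝ) < H := by exact_mod_cast hH
  rcases lt_or_eq_of_le ht1 with h | h
  · refine ⟨⌊t * H⌋₊, ?_, t * H - ⌊t * H⌋₊, ?_, ?_, ?_⟩
    · rw [Nat.floor_lt (by positivity)]
      nlinarith
    · have := Nat.floor_le (show 0 ≤ t * H by positivity)
      linarith
    · have := Nat.lt_floor_add_one (t * H)
      linarith
    · field_simp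
      ring
  · refine ⟨H - 1, by omega, 1, zero_le_one, le_refl _, ?_⟩
    have : ((H - 1 : ℕ) : ℝ) = H - 1 := by push_cast [Nat.cast_sub hH]; ring
    rw [this, h]
    field_simp
    ring

end Pool.Agent.H88.KN
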